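import Mathlib
import Pool.Agent.H153R5.Glob
set_option autoImplicit false

/-!
# Stein's restriction conjecture for the sphere holds on average over linear images

Let `k ≥ 2` and let `f` be a bounded function on the cube `[-1/(100k), 1/(100k)]^k`. For a real
`k × k` matrix `L` near the identity let `μ_(L,f)` be the image of `f(z) dz` under
`z ↦ (Lz, √(1 - |Lz|²))`, a measure on the unit sphere of `ℝ^(k+1)` with bounded density. In the
full range `q > 2(k+1)/k` of the conjecture, the `q`-th power of the `L^q` norm of the Fourier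
transform of `μ_(L,f)` is integrable in `L`, with a bound `C ‖f‖_∞^q`.
-/

namespace Pool.Agent.Results.MP_6cbfb8_an.AveragedLinearImages

open MeasureTheory Set Complex
open scoped ENNReal NNReal FourierTransform RealInnerProductSpace

/-- The cube `[-1/(100k), 1/(100k)]^k`. -/
def Q (k : ℕ) : Set (Fin k → ℝ) := {z | ∀ j, |z j| ≤ 1 / (100 * k)}

/-- The real `k × k` matrices `L`, given by their entries `L (i, j)`, all of whose entries
differ from those of the identity matrix by at most `1/(200k)`. -/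
def NearId (k : ℕ) : Set (Fin k × Fin k → ℝ) :=
  {L | ∀ i j, |L (i, j) - (if i = j then 1 else 0)| ≤ 1 / (200 * k)}

/-- The vector `Lz`. -/
def mul {k : ℕ} (L : Fin k × Fin k → ℝ) (z : Fin k → ℝ) (i : Fin k) : ℝ := ∑ j, L (i, j) * z j

/-- The Fourier transform at `(x, t) ∈ ℝ^k × ℝ` of the image of `f(z) dz` (`z ∈ Q`) under
`z ↦ (Lz, √(1 - |Lz|²))`:
`∫_Q f(z) exp(-2πi (Lz · x + √(1 - |Lz|²) t)) dz`. -/
noncomputable def FT {k : ℕ} (L : Fin k × Fin k → ℝ) (f : (Fin k → ℝ) → ℂ)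
    (ξ : (Fin k → ℝ) × ℝ) : ℂ :=
  ∫ z in Q k, f z * cexp (-(2 * Real.pi * I) *
    ((∑ i, mul L z i * ξ.1 i + Real.sqrt (1 - ∑ i, mul L z i ^ 2) * ξ.2 : ℝ) : ℂ))

open Pool.Agent.H153R5
open Pool.Agent.H153R4 (E emb_ofLp)

variable {k : ℕ}

lemma Q_eq (hk : 1 ≤ k) : Q k = qc k := by
  ext z
  unfold Q qc
  rw [mem_closedBall_zero_iff, pi_norm_le_iff_of_nonneg (ep_pos hk).le]
  simp only [mem_ofPred_eq, Real.norm_eq_abs]
  unfold ep
  rfl

lemma Q_meas (hk : 1 ≤ k) : MeasurableSet (Q k) := by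
  rw [Q_eq hk]
  exact Metric.isClosed_closedBall.measurableSet

/-- a bounded everywhere measurable representative -/
lemma exists_rep (hk : 1 ≤ k) (f : (Fin k → ℝ) → ℂ)
    (hf : MemLp f ∞ (volume.restrict (Q k))) :
    ∃ g : (Fin k → ℝ) → ℂ, Measurable g ∧
      (∀ ξ, ‖g ξ‖ ≤ (eLpNorm f ∞ (volume.restrict (Q k))).toReal) ∧
      (∀ ξ, ξ ∉ Q k → g ξ = 0) ∧
      (Q k).indicator f =ᵐ[volume] g := by
  set M := (eLpNorm f ∞ (volume.restrict (Q k))).toReal with hM
  obtain ⟨f', hf'm, hf'⟩ := hf.1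
  have hbd : ∀ᵐ ξ ∂(volume.restrict (Q k)), ‖f ξ‖ ≤ M := by
    have h1 := ae_le_eLpNormEssSup (f := f) (μ := volume.restrict (Q k))
    filter_upwards [h1] with ξ hξ
    rw [hM, eLpNorm_exponent_top, ← toReal_enorm]
    exact ENNReal.toReal_mono (by
      have := hf.2
      rw [eLpNorm_exponent_top] at this
      exact this.ne) hξ
  set S : Set (Fin k → ℝ) := Q k ∩ {ξ | ‖f' ξ‖ ≤ M} with hS
  have hSm : MeasurableSet S :=
    (Q_meas hk).inter (measurableSet_le hf'm.measurable.norm measurable_const)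
  refine ⟨S.indicator f', hf'm.measurable.indicator hSm, ?_, ?_, ?_⟩
  · intro ξ
    by_cases h : ξ ∈ S
    · rw [indicator_of_mem h]
      exact h.2
    · rw [indicator_of_notMem h, norm_zero]
      exact ENNReal.toReal_nonneg
  · intro ξ hξ
    exact indicator_of_notMem (fun h => hξ h.1) _
  · have h2 : ∀ᵐ ξ ∂(volume.restrict (Q k)), f ξ = S.indicator f' ξ := by
      filter_upwards [hf', hbd, ae_restrict_mem (Q_meas hk)] with ξ h1 h2 h3
      rw [indicator_of_mem (show ξ ∈ S from ⟨h3, by rw [mem_ofPred_eq, ← h1]; exact h2⟩), h1]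
    rw [ae_restrict_iff' (Q_meas hk)] at h2
    filter_upwards [h2] with ξ h3
    by_cases h : ξ ∈ Q k
    · rw [indicator_of_mem h, h3 h]
    · rw [indicator_of_notMem h, indicator_of_notMem (fun h' => h h'.1)]

/-- the transposed matrix -/
def Mt (L : Fin k × Fin k → ℝ) : Matrix (Fin k) (Fin k) ℝ := Matrix.of fun j i => L (i, j)

lemma FT_eq (hk : 1 ≤ k) (L : Fin k × Fin k → ℝ) (f g : (Fin k → ℝ) → ℂ)
    (hfg : (Q k).indicator f =ᵐ[volume] g) (ξ : (Fin k → ℝ) × ℝ) :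
    FT L f ξ = 𝓕 (gg ξ.2 L (fun z : E k => g z.ofLp))
      (WithLp.toLp 2 ((Mt L).mulVec ξ.1) : E k) := by
  have h1 : FT L f ξ = ∫ z, g z * cexp (-(2 * Real.pi * I) *
    ((∑ i, mul L z i * ξ.1 i + Real.sqrt (1 - ∑ i, mul L z i ^ 2) * ξ.2 : ℝ) : ℂ)) := by
    unfold FT
    rw [← integral_indicator (Q_meas hk)]
    apply integral_congr_ae
    filter_upwards [hfg] with z hz
    by_cases h : z ∈ Q k
    · rw [indicator_of_mem h] at hz ⊢
      rw [hz]
    · rw [indicator_of_notMem h] at hz ⊢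
      rw [← hz, zero_mul]
  rw [h1, ← (PiLp.volume_preserving_ofLp (Fin k)).integral_comp (emb_ofLp k), Real.fourier_eq']
  apply integral_congr_ae
  refine ae_of_all _ fun z => ?_
  simp only [gg, smul_eq_mul]
  rw [mul_comm, ← mul_assoc, ← Complex.exp_add]
  congr 2
  have e2 : ∑ i, mul L z.ofLp i * ξ.1 i =
      ⟪z, (WithLp.toLp 2 ((Mt L).mulVec ξ.1) : E k)⟫ := by
    rw [PiLp.inner_apply]
    simp only [RCLike.inner_apply, conj_trivial, Matrix.mulVec, dotProduct, Mt, Matrix.of_apply,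
      mul, Finset.sum_mul]
    rw [Finset.sum_comm]
    apply Finset.sum_congr rfl
    intro j _
    apply Finset.sum_congr rfl
    intro i _
    ring
  have e3 : fr L z.ofLp = Real.sqrt (1 - ∑ i, mul L z.ofLp i ^ 2) := rfl
  rw [e2, e3]
  push_cast
  ring

lemma near_Icc : NearId k =
    Icc (fun p => dl p - 1 / (200 * k)) (fun p => dl p + 1 / (200 * k)) := by
  ext L
  unfold NearId
  simp only [mem_ofPred_eq, mem_Icc, Pi.le_def, Prod.forall, abs_le, dl]
  constructor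
  · intro h
    exact ⟨fun i j => by linarith [(h i j).1], fun i j => by linarith [(h i j).2]⟩
  · intro h i j
    exact ⟨by linarith [h.1 i j], by linarith [h.2 i j]⟩

lemma near_meas : MeasurableSet (NearId k) := by
  rw [near_Icc]
  exact measurableSet_Icc

lemma det_ne (hk : 1 ≤ k) {L : Fin k × Fin k → ℝ} (hL : L ∈ NearId k) : (Mt L).det ≠ 0 := by
  have hk0 : (1 : ℝ) ≤ k := by exact_mod_cast hk
  apply det_ne_zero_of_sum_row_lt_diag
  intro j
  have h1 : ∑ i ∈ Finset.univ.erase j, ‖Mt L j i‖ ≤ ∑ i : Fin k, (1 / (200 * k) : ℝ) := by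
    calc ∑ i ∈ Finset.univ.erase j, ‖Mt L j i‖
        ≤ ∑ i ∈ Finset.univ.erase j, (1 / (200 * k) : ℝ) := by
          apply Finset.sum_le_sum
          intro i hi
          have := hL i j
          rw [if_neg (Finset.ne_of_mem_erase hi), sub_zero] at this
          exact this
      _ ≤ _ := Finset.sum_le_sum_of_subset_of_nonneg (Finset.erase_subset _ _)
          fun _ _ _ => by positivity
  have h2 : ∑ i : Fin k, (1 / (200 * k) : ℝ) = 1 / 200 := by
    rw [Finset.sum_const, Finset.card_univ, Fintype.card_fin, nsmul_eq_mul]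
    field_simp
  have h3 : 1 - 1 / 200 ≤ ‖Mt L j j‖ := by
    have h4 := hL j j
    rw [if_pos rfl] at h4
    have h5 : (1 / (200 * k) : ℝ) ≤ 1 / 200 := by
      apply div_le_div_of_nonneg_left (by norm_num) (by norm_num)
      linarith
    have h6 := (abs_le.1 h4).1
    have h7 : L (j, j) ≤ ‖Mt L j j‖ := le_abs_self _
    linarith
  linarith

lemma det_low (hk : 1 ≤ k) : ∃ D : ℝ, 0 < D ∧ ∀ L ∈ NearId k, |((Mt L).det)⁻¹| ≤ D := by
  have hc : IsCompact (NearId k) := by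
    rw [near_Icc]
    exact isCompact_Icc
  have hne : (NearId k).Nonempty := by
    refine ⟨dl, fun i j => ?_⟩
    unfold dl
    simp only [sub_self, abs_zero]
    positivity
  have hcont : Continuous fun L : Fin k × Fin k → ℝ => |(Mt L).det| := by
    apply Continuous.abs
    apply Continuous.matrix_det
    unfold Mt
    apply continuous_matrix
    intro i j
    simp only [Matrix.of_apply]
    fun_prop
  obtain ⟨L0, hL0, hmin⟩ := hc.exists_isMinOn hne hcont.continuousOn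
  have h0 : 0 < |(Mt L0).det| := abs_pos.2 (det_ne hk hL0)
  refine ⟨|(Mt L0).det|⁻¹, inv_pos.2 h0, fun L hL => ?_⟩
  rw [abs_inv]
  exact inv_anti₀ h0 (hmin hL)

lemma Wt_low (hk : 1 ≤ k) : ∃ w : ℝ, 0 < w ∧ ∀ L ∈ NearId k, w ≤ Wt (No k) L := by
  have hε := ep_pos hk
  refine ⟨∏ _p : Fin k × Fin k, (3 * ep k ^ 2 / 4) ^ (No k), by positivity, fun L hL => ?_⟩
  unfold Wt
  apply Finset.prod_le_prod
  · intro p _
    positivity
  · intro p _
    have h1 := hL p.1 p.2
    have h2 : |L p - dl p| ≤ ep k / 2 := by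
      have : ep k / 2 = 1 / (200 * k) := by
        unfold ep
        have : (0 : ℝ) < k := by exact_mod_cast hk
        field_simp
        norm_num
      rw [this]
      exact h1
    unfold om
    rw [if_pos (by linarith)]
    have h3 : (L p - dl p) ^ 2 ≤ (ep k / 2) ^ 2 := by
      rw [← sq_abs]
      gcongr
    gcongr
    nlinarith

lemma Fq_meas {G : E k → ℂ} (hG : Measurable G) (q : ℝ) {Y : Type*} [MeasurableSpace Y]
    {a : Y → ℝ} {b : Y → Fin k × Fin k → ℝ} {c : Y → E k} (ha : Measurable a)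
    (hb : Measurable b) (hc : Measurable c) :
    Measurable fun y => ‖𝓕 (gg (a y) (b y) G) (c y)‖ₑ ^ q := by
  have h1 := ((Fgg_meas hG).comp ((ha.prodMk hb).prodMk hc)).enorm.pow_const q
  simp only [Function.comp_def] at h1
  exact h1

lemma toLp_meas : Measurable fun x : Fin k → ℝ => (WithLp.toLp 2 x : E k) :=
  (MeasurableEquiv.toLp 2 (Fin k → ℝ)).measurable

lemma slice_le (hk : 1 ≤ k) (q : ℝ) {G : E k → ℂ} (hG : Measurable G) (D : ℝ)
    {L : Fin k × Fin k → ℝ} (hL : L ∈ NearId k) (hD : |((Mt L).det)⁻¹| ≤ D) :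
    ∫⁻ ξ : (Fin k → ℝ) × ℝ, ‖𝓕 (gg ξ.2 L G) (WithLp.toLp 2 ((Mt L).mulVec ξ.1) : E k)‖ₑ ^ q ≤
      ENNReal.ofReal D * ∫⁻ t, ∫⁻ x, ‖𝓕 (gg t L G) x‖ₑ ^ q := by
  have hmv : Measurable fun x : Fin k → ℝ => (Mt L).mulVec x := by
    have : Continuous fun x : Fin k → ℝ => (Mt L).mulVec x := by fun_prop
    exact this.measurable
  have hm1 : Measurable fun ξ : (Fin k → ℝ) × ℝ => ‖𝓕 (gg ξ.2 L G)
      (WithLp.toLp 2 ((Mt L).mulVec ξ.1) : E k)‖ₑ ^ q :=
    Fq_meas hG q measurable_snd measurable_const (toLp_meas.comp (hmv.comp measurable_fst))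
  have hm2 : Measurable fun t : ℝ => ∫⁻ x, ‖𝓕 (gg t L G) x‖ₑ ^ q := by
    have : Measurable fun p : ℝ × E k => ‖𝓕 (gg p.1 L G) p.2‖ₑ ^ q :=
      Fq_meas hG q measurable_fst measurable_const measurable_snd
    exact this.lintegral_prod_right'
  rw [Measure.volume_eq_prod, lintegral_prod_symm _ hm1.aemeasurable,
    ← lintegral_const_mul _ hm2]
  apply lintegral_mono
  intro t
  simp only
  have hH : Measurable fun x : Fin k → ℝ => ‖𝓕 (gg t L G) (WithLp.toLp 2 x : E k)‖ₑ ^ q :=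
    Fq_meas hG q measurable_const measurable_const toLp_meas
  have hT : Measurable (Matrix.toLin' (Mt L) : (Fin k → ℝ) → (Fin k → ℝ)) := by
    have : (Matrix.toLin' (Mt L) : (Fin k → ℝ) → (Fin k → ℝ)) = fun x => (Mt L).mulVec x := by
      ext x
      rw [Matrix.toLin'_apply]
    rw [this]
    exact hmv
  have h1 := lintegral_map hH hT (μ := volume)
  rw [Real.map_matrix_volume_pi_eq_smul_volume_pi (det_ne hk hL), lintegral_smul_measure,
    smul_eq_mul] at h1
  have h2 := (PiLp.volume_preserving_toLp (Fin k)).lintegral_comp_emb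
    (MeasurableEquiv.toLp 2 (Fin k → ℝ)).measurableEmbedding
    (fun x => ‖𝓕 (gg t L G) x‖ₑ ^ q)
  simp only [Matrix.toLin'_apply] at h1
  rw [← h1]
  have h3 : ∫⁻ x : Fin k → ℝ, ‖𝓕 (gg t L G) (WithLp.toLp 2 x : E k)‖ₑ ^ q =
      ∫⁻ x, ‖𝓕 (gg t L G) x‖ₑ ^ q := h2
  rw [h3]
  gcongr

/-- Let `k ≥ 2`, so that `k + 1 ≥ 3`, and `q > 2(k+1)/k`. There is `C` such that for every
`f ∈ L^∞(Q)`, the integral over all matrices `L` with `|L (i,j) - δ_(ij)| ≤ 1/(200k)` of
`∫_{ℝ^(k+1)} |FT L f|^q` is at most `C ‖f‖_∞^q`. -/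
theorem result (k : ℕ) (hk : 2 ≤ k) (q : ℝ) (hq : 2 * (k + 1) / (k : ℝ) < q) :
    ∃ C : ℝ≥0, ∀ f : (Fin k → ℝ) → ℂ, MemLp f ∞ (volume.restrict (Q k)) →
      ∫⁻ L in NearId k, (∫⁻ ξ : (Fin k → ℝ) × ℝ, ‖FT L f ξ‖ₑ ^ q) ≤
        C * eLpNorm f ∞ (volume.restrict (Q k)) ^ q := by
  have hk1 : 1 ≤ k := by omega
  have hk0 : (0 : ℝ) < k := by exact_mod_cast hk1
  obtain ⟨C0, hC0, hmain⟩ := glob hk q (by
    refine lt_of_eq_of_lt ?_ hq
    field_simp)
  obtain ⟨D, hD, hDL⟩ := det_low hk1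
  obtain ⟨w, hw, hwL⟩ := Wt_low hk1
  have hfin := rho_fin hk1 (No k)
  have hCf : ENNReal.ofReal D * (ENNReal.ofReal w⁻¹ * C0) ≠ ⊤ :=
    (ENNReal.mul_lt_top ENNReal.ofReal_lt_top
      (ENNReal.mul_lt_top ENNReal.ofReal_lt_top hC0)).ne
  refine ⟨(ENNReal.ofReal D * (ENNReal.ofReal w⁻¹ * C0)).toNNReal, fun f hf => ?_⟩
  rw [ENNReal.coe_toNNReal hCf]
  obtain ⟨g, hgm, hgb, hgs, hgf⟩ := exists_rep hk1 f hf
  set M : ℝ := (eLpNorm f ∞ (volume.restrict (Q k))).toReal with hM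
  have hMe : eLpNorm f ∞ (volume.restrict (Q k)) = ENNReal.ofReal M := by
    rw [hM, ENNReal.ofReal_toReal hf.2.ne]
  set G : E k → ℂ := fun z => g z.ofLp with hGdef
  have hG : SS M G := by
    refine ⟨hgm.comp (emb_ofLp k).measurable, fun z => hgb _, fun z hz => ?_⟩
    by_contra hc
    apply hz
    apply hgs
    rw [Q_eq hk1]
    exact fun h => hc (mem_closedBall_zero_iff.1 h)
  have hPm : Measurable fun p : ℝ × (Fin k × Fin k → ℝ) => ∫⁻ x, ‖𝓕 (gg p.1 p.2 G) x‖ₑ ^ q := by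
    have : Measurable fun p : (ℝ × (Fin k × Fin k → ℝ)) × E k =>
        ‖𝓕 (gg p.1.1 p.1.2 G) p.2‖ₑ ^ q :=
      Fq_meas hG.meas q (measurable_fst.comp measurable_fst)
        (measurable_snd.comp measurable_fst) measurable_snd
    exact this.lintegral_prod_right'
  set P : (Fin k × Fin k → ℝ) → ℝ≥0∞ := fun L => ∫⁻ t, ∫⁻ x, ‖𝓕 (gg t L G) x‖ₑ ^ q with hP
  have hPmeas : Measurable P := hPm.lintegral_prod_left'
  have hslice : ∀ L ∈ NearId k, ∫⁻ ξ : (Fin k → ℝ) × ℝ, ‖FT L f ξ‖ₑ ^ q ≤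
      ENNReal.ofReal D * P L := by
    intro L hL
    simp only [FT_eq hk1 L f g hgf]
    exact slice_le hk1 q hG.meas D hL (hDL L hL)
  rw [hMe]
  calc ∫⁻ L in NearId k, (∫⁻ ξ : (Fin k → ℝ) × ℝ, ‖FT L f ξ‖ₑ ^ q)
      ≤ ∫⁻ L in NearId k, ENNReal.ofReal D * (ENNReal.ofReal w⁻¹ *
          (ENNReal.ofReal (Wt (No k) L) * P L)) := by
        apply setLIntegral_mono' near_meas
        intro L hL
        refine (hslice L hL).trans ?_
        gcongr
        rw [← mul_assoc, ← ENNReal.ofReal_mul (by positivity)]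
        have h1 : 1 ≤ w⁻¹ * Wt (No k) L := by
          rw [inv_mul_eq_div, le_div_iff₀ hw, one_mul]
          exact hwL L hL
        calc P L = 1 * P L := (one_mul _).symm
          _ ≤ _ := by
            gcongr
            rw [← ENNReal.ofReal_one]
            exact ENNReal.ofReal_le_ofReal h1
    _ ≤ ∫⁻ L, ENNReal.ofReal D * (ENNReal.ofReal w⁻¹ *
          (ENNReal.ofReal (Wt (No k) L) * P L)) := setLIntegral_le_lintegral _ _
    _ = ENNReal.ofReal D * (ENNReal.ofReal w⁻¹ * ∫⁻ L, P L ∂(rhoW k (No k))) := by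
        rw [rho_lint _ hPmeas, lintegral_const_mul, lintegral_const_mul]
        · exact (Wt_meas _).ennreal_ofReal.mul hPmeas
        · exact ((Wt_meas _).ennreal_ofReal.mul hPmeas).const_mul _
    _ = ENNReal.ofReal D * (ENNReal.ofReal w⁻¹ * JJ q univ G) := by
        congr 2
        unfold JJ
        rw [Measure.restrict_univ, hP]
        exact (lintegral_lintegral_swap hPm.aemeasurable).symm
    _ ≤ ENNReal.ofReal D * (ENNReal.ofReal w⁻¹ * (C0 * ENNReal.ofReal M ^ q)) := by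
        gcongr
        exact hmain M G hG
    _ = _ := by ring

end Pool.Agent.Results.MP_6cbfb8_an.AveragedLinearImages
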